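import Pool.Agent.V11121.Grow.Upper

/-!
# The minimal growth rate of graphs with degrees two and three

Among all finite connected graphs in which exactly half of the vertices have degree 2 and the
other half have degree 3, the growth rate of the universal cover (the exponential growth rate of
the number of non-backtracking walks) is at least the real root `ρ₀ ≈ 1.52138` of `ρ³ = ρ + 2`,
which is the growth rate of `K₄` minus an edge.  Equality holds exactly when every vertex of
degree 3 has exactly one neighbour of degree 3.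
-/

namespace Pool.Agent.Results.MP_879d0a_co.MinimalGrowth

open Finset Filter Topology Pool.Agent.V11121.Grow

/-! ### Definitions -/

/-- `x 0, x 1, ..., x ℓ` is a non-backtracking walk of length `ℓ` in `G`: consecutive vertices are
adjacent, and `x (i+2) ≠ x i`. -/
def IsNB {V : Type} (G : SimpleGraph V) {ℓ : ℕ} (x : Fin (ℓ + 1) → V) : Prop :=
  (∀ i j : Fin (ℓ + 1), (i : ℕ) + 1 = j → G.Adj (x i) (x j)) ∧
    ∀ i j : Fin (ℓ + 1), (i : ℕ) + 2 = j → x i ≠ x j

/-- The number of non-backtracking walks of length `ℓ`. -/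
noncomputable def numNB {V : Type} (G : SimpleGraph V) (ℓ : ℕ) : ℕ :=
  Nat.card {x : Fin (ℓ + 1) → V // IsNB G x}

/-- The growth rate of `G` is `ρ`: the `ℓ`-th root of the number of non-backtracking walks of
length `ℓ` tends to `ρ`. -/
def HasGrowthRate {V : Type} (G : SimpleGraph V) (ρ : ℝ) : Prop :=
  Tendsto (fun ℓ : ℕ => (numNB G ℓ : ℝ) ^ (1 / (ℓ : ℝ))) atTop (𝓝 ρ)

/-- The degree of a vertex. -/
noncomputable def deg {V : Type} (G : SimpleGraph V) (v : V) : ℕ := (G.neighborSet v).ncard

/-- The class of all connected graphs with exactly half of the vertices of degree 2 and the other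
half of degree 3. -/
def InClass {V : Type} (G : SimpleGraph V) : Prop :=
  G.Connected ∧ (∀ v, deg G v = 2 ∨ deg G v = 3) ∧
    {v | deg G v = 2}.ncard = {v | deg G v = 3}.ncard

/-- `K₄` with the edge between `2` and `3` deleted. -/
def K4minus : SimpleGraph (Fin 4) where
  Adj i j := i ≠ j ∧ ¬ (2 ≤ i.val ∧ 2 ≤ j.val)
  symm := ⟨fun _ _ h => ⟨h.1.symm, fun h' => h.2 ⟨h'.2, h'.1⟩⟩⟩
  loopless := ⟨fun _ h => h.1 rfl⟩

/-! ### Counting walks -/

section

variable {V : Type} [Fintype V]

open Classical in
/-- Neighbourhoods. -/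
noncomputable def nbr (G : SimpleGraph V) (v : V) : Finset V := G.neighborFinset v

theorem mem_nbr {G : SimpleGraph V} {v w : V} : w ∈ nbr G v ↔ G.Adj v w := by
  classical
  unfold nbr
  exact G.mem_neighborFinset v w

theorem card_nbr (G : SimpleGraph V) (v : V) : (nbr G v).card = deg G v := by
  classical
  unfold nbr deg
  rw [Set.ncard_eq_toFinset_card']
  rfl

theorem cons_iff {G : SimpleGraph V} {L : ℕ} (u : V) (y : Fin (L + 2) → V) :
    IsNB G (Fin.cons u y : Fin (L + 3) → V) ↔ G.Adj u (y 0) ∧ u ≠ y 1 ∧ IsNB G y := by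
  constructor
  · rintro ⟨h1, h2⟩
    refine ⟨?_, ?_, ?_, ?_⟩
    · have := h1 0 (Fin.succ 0) (by simp)
      simpa only [Fin.cons_zero, Fin.cons_succ] using this
    · have := h2 0 (Fin.succ 1) (by
        simp only [Fin.val_succ, Fin.val_one, Fin.val_zero])
      simpa only [Fin.cons_zero, Fin.cons_succ] using this
    · intro i j hij
      have := h1 i.succ j.succ (by simp only [Fin.val_succ]; omega)
      simpa only [Fin.cons_succ] using this
    · intro i j hij
      have := h2 i.succ j.succ (by simp only [Fin.val_succ]; omega)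
      simpa only [Fin.cons_succ] using this
  · rintro ⟨h1, h2, h3, h4⟩
    refine ⟨?_, ?_⟩
    · intro i j hij
      induction i using Fin.cases with
      | zero =>
        induction j using Fin.cases with
        | zero => simp at hij
        | succ j =>
          have : j = 0 := by
            apply Fin.ext
            simp only [Fin.val_zero, Fin.val_succ] at hij ⊢
            omega
          subst this
          simpa only [Fin.cons_zero, Fin.cons_succ] using h1
      | succ i =>
        induction j using Fin.cases with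
        | zero => simp at hij
        | succ j =>
          simp only [Fin.cons_succ]
          exact h3 i j (by simp only [Fin.val_succ] at hij; omega)
    · intro i j hij
      induction i using Fin.cases with
      | zero =>
        induction j using Fin.cases with
        | zero => simp at hij
        | succ j =>
          have : j = 1 := by
            apply Fin.ext
            simp only [Fin.val_zero, Fin.val_succ] at hij
            simp only [Fin.val_one]
            omega
          subst this
          simpa only [Fin.cons_zero, Fin.cons_succ] using h2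
      | succ i =>
        induction j using Fin.cases with
        | zero => simp at hij
        | succ j =>
          simp only [Fin.cons_succ]
          exact h4 i j (by simp only [Fin.val_succ] at hij; omega)

variable [DecidableEq V]

open Classical in
theorem card_start (G : SimpleGraph V) (L : ℕ) : ∀ u v, G.Adj u v →
    ((univ : Finset (Fin (L + 2) → V)).filter
      (fun x => IsNB G x ∧ x 0 = u ∧ x 1 = v)).card = N (nbr G) L u v := by
  induction L with
  | zero =>
    intro u v huv
    simp only [N]
    rw [Finset.card_eq_one]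
    refine ⟨![u, v], ?_⟩
    ext x
    simp only [mem_filter, mem_univ, true_and, mem_singleton]
    constructor
    · rintro ⟨_, h1, h2⟩
      funext i
      fin_cases i
      · exact h1
      · exact h2
    · rintro rfl
      refine ⟨⟨?_, ?_⟩, rfl, rfl⟩
      · intro i j hij
        fin_cases i <;> fin_cases j <;> simp at hij ⊢
        exact huv
      · intro i j hij
        have := j.isLt
        omega
  | succ L ih =>
    intro u v huv
    simp only [N]
    rw [Finset.card_eq_sum_card_fiberwise (f := fun x => x 2) (t := (nbr G v).erase u)]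
    · refine Finset.sum_congr rfl fun w hw => ?_
      rw [mem_erase, mem_nbr] at hw
      rw [← ih v w hw.2]
      refine Finset.card_nbij' (fun x => Fin.tail x) (fun y => Fin.cons u y) ?_ ?_ ?_ ?_
      · intro x hx
        simp only [coe_filter, mem_filter, mem_univ, true_and, Set.mem_ofPred_eq] at hx ⊢
        obtain ⟨⟨h1, h2, h3⟩, h4⟩ := hx
        have hx' : x = Fin.cons u (Fin.tail x) := by
          rw [← h2]
          exact (Fin.cons_self_tail x).symm
        rw [hx'] at h1
        refine ⟨((cons_iff u _).mp h1).2.2, ?_, ?_⟩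
        · exact h3
        · exact h4
      · intro y hy
        simp only [coe_filter, mem_filter, mem_univ, true_and, Set.mem_ofPred_eq] at hy ⊢
        obtain ⟨h1, h2, h3⟩ := hy
        refine ⟨⟨(cons_iff u y).mpr ⟨by rw [h2]; exact huv, ?_, h1⟩, rfl, h2⟩, h3⟩
        rw [h3]
        exact hw.1.symm
      · intro x hx
        simp only [coe_filter, mem_filter, mem_univ, true_and, Set.mem_ofPred_eq] at hx
        obtain ⟨⟨h1, h2, h3⟩, h4⟩ := hx
        simp only
        rw [← h2]
        exact Fin.cons_self_tail x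
      · intro y hy
        funext i
        simp [Fin.tail]
    · intro x hx
      simp only [coe_filter, mem_univ, true_and, Set.mem_ofPred_eq] at hx
      obtain ⟨h1, h2, h3⟩ := hx
      simp only [mem_coe, mem_erase, mem_nbr]
      have v2 : ((2 : Fin (L + 1 + 2)) : ℕ) = 2 := by
        change 2 % (L + 1 + 2) = 2
        exact Nat.mod_eq_of_lt (by omega)
      have v1 : ((1 : Fin (L + 1 + 2)) : ℕ) = 1 := by
        change 1 % (L + 1 + 2) = 1
        exact Nat.mod_eq_of_lt (by omega)
      refine ⟨?_, ?_⟩
      · rw [← h2]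
        exact (h1.2 0 2 (by rw [v2]; simp)).symm
      · rw [← h3]
        exact h1.1 1 2 (by rw [v1, v2])

theorem numNB_succ (G : SimpleGraph V) (L : ℕ) :
    numNB G (L + 1) = ∑ u, ∑ v ∈ nbr G u, N (nbr G) L u v := by
  classical
  unfold numNB
  rw [Nat.card_eq_fintype_card, Fintype.card_subtype]
  rw [Finset.card_eq_sum_card_fiberwise (f := fun x => x 0) (t := univ) (fun x _ => by simp)]
  refine Finset.sum_congr rfl fun u _ => ?_
  rw [Finset.card_eq_sum_card_fiberwise (f := fun x => x 1) (t := nbr G u)]
  · refine Finset.sum_congr rfl fun v hv => ?_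
    rw [← card_start G L u v (mem_nbr.mp hv)]
    congr 1
    ext x
    simp only [mem_filter, mem_univ, true_and]
    tauto
  · intro x hx
    simp only [coe_filter, mem_filter, mem_univ, true_and, Set.mem_ofPred_eq] at hx
    simp only [mem_coe, mem_nbr]
    rw [← hx.2]
    exact hx.1.1 0 1 (by simp)

omit [DecidableEq V] in
theorem numNB_add (G : SimpleGraph V) (m n : ℕ) : numNB G (m + n) ≤ numNB G m * numNB G n := by
  classical
  unfold numNB
  rw [← Nat.card_prod]
  refine Nat.card_le_card_of_injective
    (fun x : {x : Fin (m + n + 1) → V // IsNB G x} =>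
      ((⟨fun i : Fin (m + 1) => x.1 ⟨i.val, by omega⟩, ?_⟩ : {x : Fin (m + 1) → V // IsNB G x}),
        (⟨fun i : Fin (n + 1) => x.1 ⟨m + i.val, by omega⟩, ?_⟩ :
          {x : Fin (n + 1) → V // IsNB G x}))) ?_
  · exact ⟨fun i j hij => x.2.1 _ _ hij, fun i j hij => x.2.2 _ _ hij⟩
  · exact ⟨fun i j hij => x.2.1 _ _ (by simp only; omega),
      fun i j hij => x.2.2 _ _ (by simp only; omega)⟩
  · intro x y hxy
    simp only [Prod.mk.injEq, Subtype.mk.injEq] at hxy
    apply Subtype.ext
    funext i
    by_cases hi : i.val ≤ m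
    · have := congrFun hxy.1 ⟨i.val, by omega⟩
      exact this
    · have := congrFun hxy.2 ⟨i.val - m, by omega⟩
      simp only at this
      have e : (⟨m + (i.val - m), by omega⟩ : Fin (m + n + 1)) = i := by
        apply Fin.ext
        simp only
        omega
      rw [e] at this
      exact this

end

/-! ### The main estimates -/

section

variable {V : Type} [Fintype V] [DecidableEq V] {G : SimpleGraph V}

omit [DecidableEq V] in
theorem card_set (P : ℕ → Prop) [DecidablePred P] :
    {v | P (deg G v)}.ncard = (univ.filter (fun v => P ((nbr G v).card))).card := by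
  classical
  rw [Set.ncard_eq_toFinset_card']
  congr 1
  ext v
  simp [card_nbr]

theorem deg23 (hG : InClass G) : Deg23 (nbr G) where
  symm := by
    intro u v
    rw [mem_nbr, mem_nbr]
    exact G.adj_comm u v
  deg := by
    intro v
    rw [card_nbr]
    exact hG.2.1 v
  half := by
    have h1 := card_set (G := G) (fun n => n = 2)
    have h2 := card_set (G := G) (fun n => n = 3)
    rw [← h1, ← h2]
    exact hG.2.2

theorem numNB_pos (hG : InClass G) (ℓ : ℕ) : 0 < numNB G ℓ := by
  classical
  obtain ⟨v0⟩ : Nonempty V := hG.1.nonempty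
  have hd := deg23 hG
  obtain ⟨r, hr⟩ : ∃ r, Root r := by
    have hc : ContinuousOn (fun x : ℝ => x ^ 3 - x - 2) (Set.Icc 1 2) := by fun_prop
    obtain ⟨r, hr, h0⟩ := intermediate_value_Icc (by norm_num) hc
      (show (0 : ℝ) ∈ Set.Icc _ _ from ⟨by norm_num, by norm_num⟩)
    exact ⟨r, by simp only at h0; linarith, by linarith [hr.1]⟩
  have hg := good r hr hd
  cases ℓ with
  | zero =>
    unfold numNB
    rw [Nat.card_pos_iff]
    refine ⟨⟨⟨fun _ => v0, ?_, ?_⟩⟩, inferInstance⟩
    · intro i j hij
      have := j.isLt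
      omega
    · intro i j hij
      have := j.isLt
      omega
  | succ L =>
    rw [numNB_succ]
    have hne : (nbr G v0).Nonempty := by
      rw [← Finset.card_pos]
      rcases hd.deg v0 with h | h <;> omega
    obtain ⟨w, hw⟩ := hne
    refine Finset.sum_pos' (fun u _ => Nat.zero_le _) ⟨v0, mem_univ _, ?_⟩
    exact Finset.sum_pos' (fun u _ => Nat.zero_le _) ⟨w, hw, hg.Npos L v0 w hw⟩

theorem lower {r : ℝ} (hr : Root r) (hG : InClass G) :
    ∃ δ : ℝ, 0 ≤ δ ∧ ((∃ v ∈ D3 (nbr G), c3 (nbr G) v ≠ 1) → 0 < δ) ∧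
      ∀ L : ℕ, (L : ℝ) * (Real.log r + δ) ≤ Real.log (numNB G (L + 1)) := by
  classical
  obtain ⟨v0⟩ : Nonempty V := hG.1.nonempty
  have hd := deg23 hG
  have hg := good r hr hd
  have hS : 0 < ∑ v, S (nbr G) (We (nbr G) r) v := by
    refine Finset.sum_pos (fun v _ => ?_) ⟨v0, mem_univ _⟩
    unfold S
    refine Finset.sum_pos (fun x hx => ?_) ?_
    · rw [hg.Wsymm]
      exact hg.Wpos hx
    · rw [← Finset.card_pos]
      rcases hd.deg v with h | h <;> omega
  refine ⟨((D3 (nbr G)).filter (fun v => c3 (nbr G) v ≠ 1)).card * (1 / 1000) /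
    ∑ v, S (nbr G) (We (nbr G) r) v, by positivity, ?_, ?_⟩
  · rintro ⟨v, hv, hc⟩
    have : 0 < ((D3 (nbr G)).filter (fun v => c3 (nbr G) v ≠ 1)).card :=
      Finset.card_pos.mpr ⟨v, mem_filter.mpr ⟨hv, hc⟩⟩
    have : (0 : ℝ) < ((D3 (nbr G)).filter (fun v => c3 (nbr G) v ≠ 1)).card := by
      exact_mod_cast this
    positivity
  · intro L
    have h1 := total_bound hr hd
    have h2 := hg.bound_total L (T := (numNB G (L + 1) : ℝ)) (by
      intro u v hv
      rw [numNB_succ]
      have e1 : N (nbr G) L u v ≤ ∑ v ∈ nbr G u, N (nbr G) L u v :=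
        Finset.single_le_sum (f := fun v => N (nbr G) L u v) (fun _ _ => Nat.zero_le _) hv
      have e2 : ∑ v ∈ nbr G u, N (nbr G) L u v ≤ ∑ u, ∑ v ∈ nbr G u, N (nbr G) L u v :=
        Finset.single_le_sum (f := fun u => ∑ v ∈ nbr G u, N (nbr G) L u v)
          (fun _ _ => Nat.zero_le _) (mem_univ u)
      exact_mod_cast e1.trans e2)
    have h3 := (mul_le_mul_of_nonneg_left h1 (Nat.cast_nonneg L : (0 : ℝ) ≤ L)).trans h2
    have h4 : (L : ℝ) * (Real.log r + ((D3 (nbr G)).filter
        (fun v => c3 (nbr G) v ≠ 1)).card * (1 / 1000) / ∑ v, S (nbr G) (We (nbr G) r) v) *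
        ∑ v, S (nbr G) (We (nbr G) r) v =
        (L : ℝ) * (Real.log r * ∑ v, S (nbr G) (We (nbr G) r) v +
        ((D3 (nbr G)).filter (fun v => c3 (nbr G) v ≠ 1)).card * (1 / 1000)) := by
      field_simp
    rw [mul_comm (∑ v, S (nbr G) (We (nbr G) r) v)] at h3
    exact le_of_mul_le_mul_right (h4.le.trans h3) hS

theorem upper {r : ℝ} (hr : Root r) (hG : InClass G)
    (hall : ∀ v ∈ D3 (nbr G), c3 (nbr G) v = 1) (L : ℕ) :
    Real.log (numNB G (L + 1)) ≤
      Real.log ((Fintype.card V : ℝ) ^ 2 * 2) + ((L : ℝ) + 1) * Real.log r := by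
  classical
  have hd := deg23 hG
  have hpos := hr.pos
  obtain ⟨v0⟩ : Nonempty V := hG.1.nonempty
  have hV : (0 : ℝ) < Fintype.card V := by
    exact_mod_cast Fintype.card_pos_iff.mpr ⟨v0⟩
  have h1 : (numNB G (L + 1) : ℝ) ≤ ((Fintype.card V : ℝ) ^ 2 * 2) * r ^ (L + 1) := by
    rw [numNB_succ]
    push_cast
    have e1 : ∀ u, ∑ v ∈ nbr G u, (N (nbr G) L u v : ℝ) ≤
        (Fintype.card V : ℝ) * (2 * r ^ (L + 1)) := by
      intro u
      have e2 : ∀ v ∈ nbr G u, (N (nbr G) L u v : ℝ) ≤ 2 * r ^ (L + 1) := by
        intro v hv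
        have e3 := N_upper hr hd hall L u v ((hd.symm u v).mp hv)
        have e4 := (xx_low (nb := nbr G) hr u v).2
        have e5 : (0 : ℝ) < r ^ (L + 1) := by positivity
        nlinarith
      refine (Finset.sum_le_sum e2).trans ?_
      rw [Finset.sum_const, nsmul_eq_mul]
      refine mul_le_mul_of_nonneg_right ?_ (by positivity)
      exact_mod_cast Finset.card_le_univ _
    refine (Finset.sum_le_sum fun u _ => e1 u).trans ?_
    rw [Finset.sum_const, nsmul_eq_mul, Finset.card_univ]
    apply le_of_eq
    ring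
  have h2 := numNB_pos hG (L + 1)
  have h3 := Real.log_le_log (by exact_mod_cast h2) h1
  rw [Real.log_mul (by positivity) (by positivity), Real.log_pow] at h3
  push_cast at h3
  exact h3

/-- The growth rate exists and is the exponential of the limit of the logarithms. -/
theorem exists_limit (hG : InClass G) : ∃ c : ℝ,
    Tendsto (fun n : ℕ => Real.log (numNB G n) / n) atTop (𝓝 c) ∧
      HasGrowthRate G (Real.exp c) := by
  have hsub : Subadditive (fun n : ℕ => Real.log (numNB G n)) := by
    intro m n
    have h1 := numNB_pos hG m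
    have h2 := numNB_pos hG n
    have h3 := numNB_pos hG (m + n)
    have h4 : (numNB G (m + n) : ℝ) ≤ numNB G m * numNB G n := by
      exact_mod_cast numNB_add G m n
    have h5 := Real.log_le_log (by exact_mod_cast h3) h4
    have p1 : (0 : ℝ) < numNB G m := by exact_mod_cast h1
    have p2 : (0 : ℝ) < numNB G n := by exact_mod_cast h2
    rw [Real.log_mul p1.ne' p2.ne'] at h5
    exact h5
  have hbdd : BddBelow (Set.range fun n : ℕ => Real.log (numNB G n) / n) := by
    refine ⟨0, ?_⟩
    rintro _ ⟨n, rfl⟩
    have h1 := numNB_pos hG n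
    have : (1 : ℝ) ≤ numNB G n := by exact_mod_cast h1
    have := Real.log_nonneg this
    positivity
  refine ⟨hsub.lim, hsub.tendsto_lim hbdd, ?_⟩
  have h1 := (Real.continuous_exp.tendsto hsub.lim).comp (hsub.tendsto_lim hbdd)
  unfold HasGrowthRate
  refine h1.congr fun n => ?_
  have h2 : (0 : ℝ) < numNB G n := by exact_mod_cast numNB_pos hG n
  rw [Real.rpow_def_of_pos h2]
  simp only [Function.comp_apply]
  congr 1
  ring

theorem main {r : ℝ} (hr : Root r) (hG : InClass G) :
    ∃ ρ, HasGrowthRate G ρ ∧ r ≤ ρ ∧ (ρ = r ↔ ∀ v ∈ D3 (nbr G), c3 (nbr G) v = 1) := by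
  classical
  obtain ⟨c, hc, hgr⟩ := exists_limit hG
  obtain ⟨δ, hδ0, hδ, hlow⟩ := lower hr hG
  have hpos := hr.pos
  have hshift : Tendsto (fun n : ℕ => Real.log (numNB G (n + 1)) / ((n + 1 : ℕ) : ℝ)) atTop
      (𝓝 c) := hc.comp (tendsto_add_atTop_nat 1)
  have hfrac : Tendsto (fun n : ℕ => (n : ℝ) / ((n : ℝ) + 1)) atTop (𝓝 1) :=
    tendsto_natCast_div_add_atTop 1
  have hge : Real.log r + δ ≤ c := by
    have h1 : Tendsto (fun n : ℕ => (n : ℝ) / ((n : ℝ) + 1) * (Real.log r + δ)) atTop
        (𝓝 (1 * (Real.log r + δ))) := hfrac.mul_const _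
    rw [one_mul] at h1
    refine le_of_tendsto_of_tendsto' h1 hshift fun n => ?_
    have h2 := hlow n
    push_cast
    rw [div_mul_eq_mul_div]
    exact div_le_div_of_nonneg_right h2 (by positivity)
  refine ⟨Real.exp c, hgr, ?_, ?_⟩
  · rw [← Real.exp_log hpos]
    exact Real.exp_le_exp.mpr (by linarith)
  · constructor
    · intro he
      by_contra hcon
      push Not at hcon
      have h1 := hδ hcon
      have h2 : Real.log r < c := by linarith
      have h3 := Real.exp_lt_exp.mpr h2
      rw [Real.exp_log hpos] at h3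
      linarith
    · intro hall
      have hle : c ≤ Real.log r := by
        have hK : Tendsto (fun n : ℕ => Real.log ((Fintype.card V : ℝ) ^ 2 * 2) /
            ((n : ℝ) + 1) + Real.log r) atTop (𝓝 (0 + Real.log r)) := by
          refine Tendsto.add ?_ tendsto_const_nhds
          exact tendsto_const_nhds.div_atTop
            (tendsto_atTop_add_const_right _ _ tendsto_natCast_atTop_atTop)
        rw [zero_add] at hK
        refine le_of_tendsto_of_tendsto' hshift hK fun n => ?_
        have h2 := upper hr hG hall n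
        push_cast
        have h3 : (0 : ℝ) < (n : ℝ) + 1 := by positivity
        rw [div_le_iff₀ h3]
        have : (Real.log ((Fintype.card V : ℝ) ^ 2 * 2) / ((n : ℝ) + 1) + Real.log r) *
            ((n : ℝ) + 1) = Real.log ((Fintype.card V : ℝ) ^ 2 * 2) +
            ((n : ℝ) + 1) * Real.log r := by
          field_simp
        rw [this]
        exact h2
      have : c = Real.log r := le_antisymm hle (by linarith)
      rw [this, Real.exp_log hpos]

omit [DecidableEq V] in
theorem cond_iff [DecidableEq V] : (∀ v ∈ D3 (nbr G), c3 (nbr G) v = 1) ↔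
    ∀ v, deg G v = 3 → {w | G.Adj v w ∧ deg G w = 3}.ncard = 1 := by
  classical
  have h : ∀ v, c3 (nbr G) v = {w | G.Adj v w ∧ deg G w = 3}.ncard := by
    intro v
    unfold c3
    rw [Set.ncard_eq_toFinset_card']
    congr 1
    ext w
    simp only [mem_filter, mem_nbr, mem_D3, card_nbr, Set.mem_toFinset, Set.mem_ofPred_eq]
  constructor
  · intro h1 v hv
    rw [← h]
    exact h1 v (mem_D3.mpr (by rw [card_nbr]; exact hv))
  · intro h1 v hv
    rw [h]
    refine h1 v ?_
    rw [mem_D3, card_nbr] at hv
    exact hv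

end

instance : DecidableRel K4minus.Adj := fun i j => by
  unfold K4minus
  exact inferInstanceAs (Decidable (i ≠ j ∧ ¬ (2 ≤ i.val ∧ 2 ≤ j.val)))

theorem degK (v : Fin 4) : deg K4minus v = if v.val < 2 then 3 else 2 := by
  unfold deg
  rw [Set.ncard_eq_toFinset_card']
  revert v
  decide

theorem K4_class : InClass K4minus := by
  refine ⟨?_, ?_, ?_⟩
  · have h0 : ∀ v : Fin 4, v ≠ 0 → K4minus.Adj 0 v := by decide
    refine (SimpleGraph.connected_iff_exists_forall_reachable _).mpr ⟨0, ?_⟩
    intro v
    by_cases hv : v = 0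
    · rw [hv]
    · exact (h0 v hv).reachable
  · intro v
    rw [degK]
    split_ifs
    · exact Or.inr rfl
    · exact Or.inl rfl
  · have e1 : {v | deg K4minus v = 2} = {v : Fin 4 | ¬ v.val < 2} := by
      ext v
      simp only [Set.mem_ofPred_eq, degK]
      split_ifs with h
      · simp [h]
      · simp [h]
    have e2 : {v | deg K4minus v = 3} = {v : Fin 4 | v.val < 2} := by
      ext v
      simp only [Set.mem_ofPred_eq, degK]
      split_ifs with h
      · simp [h]
      · simp [h]
    rw [e1, e2, Set.ncard_eq_toFinset_card', Set.ncard_eq_toFinset_card']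
    decide

theorem K4_cond : ∀ v, deg K4minus v = 3 → {w | K4minus.Adj v w ∧ deg K4minus w = 3}.ncard = 1 := by
  intro v hv
  rw [degK] at hv
  have hv2 : v.val < 2 := by
    by_contra hcon
    rw [if_neg hcon] at hv
    omega
  have e1 : {w | K4minus.Adj v w ∧ deg K4minus w = 3} =
      {w : Fin 4 | K4minus.Adj v w ∧ w.val < 2} := by
    ext w
    simp only [Set.mem_ofPred_eq, degK]
    split_ifs with h
    · simp [h]
    · simp [h]
  rw [e1, Set.ncard_eq_toFinset_card']
  clear e1 hv
  revert v
  decide

/-- There is a real number `ρ₀`, the unique positive root of `ρ³ = ρ + 2`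
(`1.52137 < ρ₀ < 1.52138`), such that `K₄` minus an edge belongs to the class and has growth rate
`ρ₀`, and every graph `G` of the class has a growth rate `ρ(G) ≥ ρ₀`, with equality if and only if
every vertex of degree three has exactly one neighbour of degree three. -/
theorem result : ∃ ρ₀ : ℝ, (1.52137 < ρ₀ ∧ ρ₀ < 1.52138) ∧
    (∀ x : ℝ, 0 < x → (x ^ 3 = x + 2 ↔ x = ρ₀)) ∧
    InClass K4minus ∧ HasGrowthRate K4minus ρ₀ ∧
    ∀ (V : Type) [Finite V] (G : SimpleGraph V), InClass G →
      ∃ ρ, HasGrowthRate G ρ ∧ ρ₀ ≤ ρ ∧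
        (ρ = ρ₀ ↔ ∀ v, deg G v = 3 → {w | G.Adj v w ∧ deg G w = 3}.ncard = 1) := by
  classical
  obtain ⟨r, hr⟩ : ∃ r, Root r := by
    have hc : ContinuousOn (fun x : ℝ => x ^ 3 - x - 2) (Set.Icc 1 2) := by fun_prop
    obtain ⟨r, hr, h0⟩ := intermediate_value_Icc (by norm_num) hc
      (show (0 : ℝ) ∈ Set.Icc _ _ from ⟨by norm_num, by norm_num⟩)
    exact ⟨r, by simp only at h0; linarith, by linarith [hr.1]⟩
  have hmain : ∀ (V : Type) [Finite V] (G : SimpleGraph V), InClass G →
      ∃ ρ, HasGrowthRate G ρ ∧ r ≤ ρ ∧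
        (ρ = r ↔ ∀ v, deg G v = 3 → {w | G.Adj v w ∧ deg G w = 3}.ncard = 1) := by
    intro V _ G hG
    haveI : Fintype V := Fintype.ofFinite V
    obtain ⟨ρ, h1, h2, h3⟩ := main hr hG
    exact ⟨ρ, h1, h2, h3.trans cond_iff⟩
  refine ⟨r, ⟨hr.lo, hr.hi⟩, ?_, K4_class, ?_, hmain⟩
  · intro x hx
    constructor
    · intro h
      have h1 : (x - r) * (x ^ 2 + x * r + r ^ 2 - 1) = 0 := by
        have := hr.cube
        ring_nf
        nlinarith
      have hx' : Root x := ⟨h, hx⟩
      have h2 := hx'.lo
      have h3 := hr.lo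
      have h4 : x ^ 2 + x * r + r ^ 2 - 1 ≠ 0 := by nlinarith
      rcases mul_eq_zero.mp h1 with h5 | h5
      · linarith
      · exact absurd h5 h4
    · rintro rfl
      exact hr.cube
  · obtain ⟨ρ, h1, _, h3⟩ := hmain (Fin 4) K4minus K4_class
    rw [h3.mpr K4_cond] at h1
    exact h1

end Pool.Agent.Results.MP_879d0a_co.MinimalGrowth
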